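import Mathlib

set_option autoImplicit false

/-! # No bounded geometry space is coarsely universal (helper779)

Counting: a graph on `ℕ` made of the half-line and, in disjoint blocks of length `2 N`, the edges of a
permutation of `N` letters.  The number of permutations `N!` beats the number `C ^ N` of maps of the block
into a space of bounded geometry with prescribed control constants. -/

namespace Pool.Agent.H779R3.CU

open Finset

section stage

variable {X : Type} [MetricSpace X]

theorem exists_code (D : ℕ) (r : ℝ)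
    (hD : ∀ x : X, ∀ s : Finset X, (↑s : Set X) ⊆ Metric.closedBall x r → s.card ≤ D) (x : X) :
    ∃ e : X → ℕ, (∀ y, dist y x ≤ r → e y < D) ∧
      ∀ y y', dist y x ≤ r → dist y' x ≤ r → e y = e y' → y = y' := by
  classical
  have hfin : (Metric.closedBall x r).Finite := by
    by_contra h
    obtain ⟨s, hs, hc⟩ := Set.Infinite.exists_subset_card_eq h (D + 1)
    have := hD x s hs
    omega
  set s := hfin.toFinset with hs
  have hmem : ∀ y, y ∈ s ↔ dist y x ≤ r := by intro y; simp [hs]
  have hcard : s.card ≤ D := hD x s (by intro y hy; simpa [hmem] using hy)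
  refine ⟨fun y => if h : y ∈ s then ((s.equivFin ⟨y, h⟩ : Fin s.card) : ℕ) else 0, ?_, ?_⟩
  · intro y hy
    have h1 : y ∈ s := (hmem y).2 hy
    simp only [h1, dif_pos]
    exact lt_of_lt_of_le (Fin.is_lt _) hcard
  · intro y y' hy hy' h
    have h1 : y ∈ s := (hmem y).2 hy
    have h2 : y' ∈ s := (hmem y').2 hy'
    simp only [h1, h2, dif_pos] at h
    have h3 := s.equivFin.injective (Fin.ext h)
    exact congrArg Subtype.val h3

/-- index of an element in a finite set -/
noncomputable def idx {N : ℕ} (S : Finset (Fin N)) (j : Fin N) : ℕ :=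
  if h : j ∈ S then ((S.equivFin ⟨j, h⟩ : Fin S.card) : ℕ) else 0

theorem idx_lt {N : ℕ} (S : Finset (Fin N)) (j : Fin N) (hj : j ∈ S) : idx S j < S.card := by
  unfold idx
  rw [dif_pos hj]
  exact Fin.is_lt _

theorem idx_inj {N : ℕ} (S : Finset (Fin N)) (j j' : Fin N) (hj : j ∈ S) (hj' : j' ∈ S)
    (h : idx S j = idx S j') : j = j' := by
  unfold idx at h
  rw [dif_pos hj, dif_pos hj'] at h
  exact congrArg Subtype.val (S.equivFin.injective (Fin.ext h))

theorem stage (x0 : X) (D M a : ℕ) (r : ℝ)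
    (hD : ∀ x : X, ∀ s : Finset X, (↑s : Set X) ⊆ Metric.closedBall x r → s.card ≤ D) :
    ∃ N : ℕ, 0 < N ∧ ∃ σ : Equiv.Perm (Fin N), ∀ g : ℕ → X, g 0 = x0 →
      (∀ i, dist (g (i + 1)) (g i) ≤ r) →
      (∀ x, ∀ s : Finset ℕ, (∀ i ∈ s, g (i + 1) = x) → s.card ≤ M) →
      ∃ i : Fin N, r < dist (g (a + N + (σ i : ℕ) + 1)) (g (a + (i : ℕ) + 1)) := by
  classical
  obtain ⟨n0, hn0⟩ := Filter.eventually_atTop.1
    (Nat.eventually_mul_pow_lt_factorial_sub (D ^ (a + 1)) (D ^ 3 * M) 1)
  set N := max n0 1 with hN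
  have hN0 : 0 < N := lt_of_lt_of_le one_pos (le_max_right _ _)
  have hfac : D ^ (a + 2 * N + 1) * (D * M) ^ N < N.factorial := by
    have h1 := hn0 N (le_max_left _ _)
    have h2 : (N - 1).factorial ≤ N.factorial := Nat.factorial_le (Nat.sub_le _ _)
    calc D ^ (a + 2 * N + 1) * (D * M) ^ N = D ^ (a + 1) * (D ^ 3 * M) ^ N := by ring
      _ < (N - 1).factorial := h1
      _ ≤ N.factorial := h2
  refine ⟨N, hN0, ?_⟩
  by_contra hcon
  push Not at hcon
  choose g hg0 hg1 hg2 hg3 using hcon
  choose e he1 he2 using exists_code D r hD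
  -- the candidates
  let S : Equiv.Perm (Fin N) → Fin N → Finset (Fin N) := fun σ i =>
    univ.filter (fun j => dist (g σ (a + N + (j : ℕ) + 1)) (g σ (a + (i : ℕ) + 1)) ≤ r)
  have hScard : ∀ σ i, (S σ i).card ≤ D * M := by
    intro σ i
    have h1 : (S σ i).card ≤ M * ((S σ i).image (fun j : Fin N => g σ (a + N + (j : ℕ) + 1))).card := by
      apply Finset.card_le_mul_card_image
      intro y hy
      have h2 : (((S σ i).filter (fun j : Fin N => g σ (a + N + (j : ℕ) + 1) = y)).image
          (fun j : Fin N => a + N + (j : ℕ))).card ≤ M := by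
        apply hg2 σ y
        intro k hk
        simp only [Finset.mem_image, Finset.mem_filter] at hk
        obtain ⟨j, ⟨_, hj⟩, rfl⟩ := hk
        exact hj
      rwa [Finset.card_image_of_injective _ (by
        intro j j' h
        have h3 : a + N + (j : ℕ) = a + N + (j' : ℕ) := h
        exact Fin.ext (by omega))] at h2
    have h2 : ((S σ i).image (fun j : Fin N => g σ (a + N + (j : ℕ) + 1))).card ≤ D := by
      apply hD (g σ (a + (i : ℕ) + 1))
      intro y hy
      simp only [Finset.coe_image, Set.mem_image, Finset.mem_coe] at hy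
      obtain ⟨j, hj, rfl⟩ := hy
      simp only [S, Finset.mem_filter] at hj
      rw [Metric.mem_closedBall]
      exact hj.2
    calc (S σ i).card ≤ M * ((S σ i).image (fun j : Fin N => g σ (a + N + (j : ℕ) + 1))).card := h1
      _ ≤ M * D := Nat.mul_le_mul_left _ h2
      _ = D * M := mul_comm _ _
  have hSmem : ∀ σ i, σ i ∈ S σ i := by
    intro σ i
    simp only [S, Finset.mem_filter, Finset.mem_univ, true_and]
    exact hg3 σ i
  -- the code
  let code : Equiv.Perm (Fin N) → (Fin (a + 2 * N + 1) → Fin D) × (Fin N → Fin (D * M)) := fun σ =>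
    (fun k => ⟨e (g σ k) (g σ (k + 1)), he1 _ _ (hg1 σ k)⟩,
     fun i => ⟨idx (S σ i) (σ i), lt_of_lt_of_le (idx_lt _ _ (hSmem σ i)) (hScard σ i)⟩)
  have hinj : Function.Injective code := by
    intro σ σ' h
    have h1 : ∀ k : Fin (a + 2 * N + 1), e (g σ k) (g σ (k + 1)) = e (g σ' k) (g σ' (k + 1)) := by
      intro k
      have := congrFun (congrArg Prod.fst h) k
      exact congrArg Fin.val this
    have h2 : ∀ i : Fin N, idx (S σ i) (σ i) = idx (S σ' i) (σ' i) := by
      intro i
      have := congrFun (congrArg Prod.snd h) i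
      exact congrArg Fin.val this
    have h3 : ∀ k : ℕ, k ≤ a + 2 * N + 1 → g σ k = g σ' k := by
      intro k
      induction k with
      | zero => intro _; rw [hg0, hg0]
      | succ k ih =>
        intro hk
        have h4 := ih (by omega)
        have h5 := h1 ⟨k, by omega⟩
        simp only at h5
        rw [h4] at h5
        refine he2 (g σ' k) _ _ ?_ ?_ h5
        · rw [← h4]; exact hg1 σ k
        · exact hg1 σ' k
    have h4 : ∀ i, S σ i = S σ' i := by
      intro i
      ext j
      simp only [S, Finset.mem_filter, Finset.mem_univ, true_and]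
      rw [h3 (a + N + (j : ℕ) + 1) (by omega), h3 (a + (i : ℕ) + 1) (by omega)]
    ext i
    have h5 := h2 i
    rw [h4 i] at h5
    have h6 : σ i ∈ S σ' i := by rw [← h4 i]; exact hSmem σ i
    exact congrArg Fin.val (idx_inj _ _ _ h6 (hSmem σ' i) h5)
  have hcard := Fintype.card_le_of_injective code hinj
  rw [Fintype.card_perm, Fintype.card_prod, Fintype.card_fun, Fintype.card_fun] at hcard
  simp only [Fintype.card_fin] at hcard
  omega

end stage

/-! ### graph metrics on `ℕ` -/

/-- the vertex set `ℕ` with the graph metric of `G` -/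
structure V (G : SimpleGraph ℕ) : Type where
  /-- the vertex -/
  val : ℕ

theorem V.val_injective (G : SimpleGraph ℕ) : Function.Injective (V.val (G := G)) := by
  rintro ⟨u⟩ ⟨v⟩ h
  exact congrArg _ h

/-- the graph metric -/
noncomputable abbrev met (G : SimpleGraph ℕ) (hG : G.Connected) : MetricSpace (V G) where
  dist u v := ((G.dist u.val v.val : ℕ) : ℝ)
  dist_self u := by simp
  dist_comm u v := by rw [SimpleGraph.dist_comm]
  dist_triangle u v w := by exact_mod_cast hG.dist_triangle
  eq_of_dist_eq_zero := by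
    intro u v h
    have h1 : G.dist u.val v.val = 0 := by exact_mod_cast h
    exact V.val_injective G ((hG.dist_eq_zero_iff).1 h1)

theorem bounded_geometry (G : SimpleGraph ℕ) (hG : G.Connected) (nb : ℕ → Finset ℕ) (d : ℕ)
    (hnb : ∀ u, (nb u).card ≤ d) (hself : ∀ u, u ∈ nb u) (hadj : ∀ u v, G.Adj u v → v ∈ nb u)
    (r : ℝ) : ∃ K : ℕ, ∀ y : V G, ∀ s : Finset (V G),
      (∀ v ∈ s, ((G.dist v.val y.val : ℕ) : ℝ) ≤ r) → s.card ≤ K := by
  classical
  let B : ℕ → ℕ → Finset ℕ := fun k => Nat.rec (fun y => {y}) (fun _ b y => (nb y).biUnion b) k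
  have hB0 : ∀ y, B 0 y = {y} := fun y => rfl
  have hB1 : ∀ k y, B (k + 1) y = (nb y).biUnion (B k) := fun k y => rfl
  have hcard : ∀ k y, (B k y).card ≤ d ^ k := by
    intro k
    induction k with
    | zero => intro y; rw [hB0]; simp
    | succ k ih =>
      intro y
      rw [hB1]
      refine (Finset.card_biUnion_le_card_mul _ _ _ (fun u _ => ih u)).trans ?_
      rw [pow_succ, mul_comm]
      exact Nat.mul_le_mul_left _ (hnb y)
  have hmono : ∀ k y, B k y ⊆ B (k + 1) y := by
    intro k y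
    rw [hB1]
    exact Finset.subset_biUnion_of_mem (B k) (hself y)
  have hmono' : ∀ j k y, j ≤ k → B j y ⊆ B k y := by
    intro j k y hjk
    induction k, hjk using Nat.le_induction with
    | base => exact Finset.Subset.refl _
    | succ k _ ih => exact ih.trans (hmono k y)
  have hwalk : ∀ (u v : ℕ) (p : G.Walk u v), v ∈ B p.length u := by
    intro u v p
    induction p with
    | nil => rw [SimpleGraph.Walk.length_nil, hB0]; simp
    | cons h p ih =>
      rw [SimpleGraph.Walk.length_cons, hB1, Finset.mem_biUnion]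
      exact ⟨_, hadj _ _ h, ih⟩
  refine ⟨d ^ ⌊r⌋₊, ?_⟩
  intro y s hs
  have h1 : ∀ v ∈ s, v.val ∈ B ⌊r⌋₊ y.val := by
    intro v hv
    have h4 : G.dist v.val y.val ≤ ⌊r⌋₊ := Nat.le_floor (hs v hv)
    obtain ⟨p, hp⟩ := (hG.exists_walk_length_eq_dist y.val v.val)
    have h5 := hwalk y.val v.val p
    rw [hp, SimpleGraph.dist_comm] at h5
    exact hmono' _ _ _ h4 h5
  rw [← Finset.card_image_of_injective s (V.val_injective G)]
  refine (Finset.card_le_card (t := B ⌊r⌋₊ y.val) ?_).trans (hcard _ _)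
  intro w hw
  rw [Finset.mem_image] at hw
  obtain ⟨v, hv, rfl⟩ := hw
  exact h1 v hv

/-! ### the block graph -/

section block

variable (N : ℕ → ℕ) (σ : ∀ n, Equiv.Perm (Fin (N n))) (a : ℕ → ℕ)

/-- the extra edges -/
def Ext (u v : ℕ) : Prop := ∃ n, ∃ i : Fin (N n), u = a n + i ∧ v = a n + N n + (σ n i : ℕ)

/-- half-line with the extra edges -/
def G : SimpleGraph ℕ := SimpleGraph.fromRel (fun u v => v = u + 1 ∨ Ext N σ a u v)

theorem G_connected : (G N σ a).Connected := by
  rw [SimpleGraph.connected_iff_exists_forall_reachable]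
  refine ⟨0, fun n => ?_⟩
  induction n with
  | zero => exact SimpleGraph.Reachable.refl _
  | succ n ih =>
    refine ih.trans (SimpleGraph.Adj.reachable ?_)
    rw [G, SimpleGraph.fromRel_adj]
    exact ⟨by omega, Or.inl (Or.inl rfl)⟩

theorem adj_succ (i : ℕ) : (G N σ a).Adj i (i + 1) := by
  rw [G, SimpleGraph.fromRel_adj]
  exact ⟨by omega, Or.inl (Or.inl rfl)⟩

variable (ha : ∀ n, a (n + 1) = a n + 2 * N n)

include ha

theorem a_mono : Monotone a := monotone_nat_of_le_succ (fun n => by rw [ha]; omega)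

theorem block_unique (u n m : ℕ) (h1 : a n ≤ u) (h2 : u < a (n + 1)) (h3 : a m ≤ u)
    (h4 : u < a (m + 1)) : n = m := by
  have hm := a_mono N a ha
  rcases lt_trichotomy n m with h | h | h
  · have := hm (show n + 1 ≤ m from h); omega
  · exact h
  · have := hm (show m + 1 ≤ n from h); omega

theorem ext_unique_right (u v v' : ℕ) (h : Ext N σ a u v) (h' : Ext N σ a u v') : v = v' := by
  obtain ⟨n, i, hi, hv⟩ := h
  obtain ⟨m, j, hj, hv'⟩ := h'
  have h1 := i.isLt
  have h2 := j.isLt
  have hn := ha n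
  have hm := ha m
  have hnm : n = m := block_unique N a ha u n m (by omega) (by omega) (by omega) (by omega)
  subst hnm
  have hij : i = j := Fin.ext (by omega)
  subst hij
  rw [hv, hv']

theorem ext_unique_left (u u' v : ℕ) (h : Ext N σ a u v) (h' : Ext N σ a u' v) : u = u' := by
  obtain ⟨n, i, hi, hv⟩ := h
  obtain ⟨m, j, hj, hv'⟩ := h'
  have h1 := (σ n i).isLt
  have h2 := (σ m j).isLt
  have hn := ha n
  have hm := ha m
  have hnm : n = m := block_unique N a ha v n m (by omega) (by omega) (by omega) (by omega)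
  subst hnm
  have hij : σ n i = σ n j := Fin.ext (by omega)
  have hij' : i = j := (σ n).injective hij
  subst hij'
  rw [hi, hj]

theorem nbs : ∃ nb : ℕ → Finset ℕ, (∀ u, (nb u).card ≤ 5) ∧ (∀ u, u ∈ nb u) ∧
    ∀ u v, (G N σ a).Adj u v → v ∈ nb u := by
  classical
  let p : ℕ → ℕ := fun u => if h : ∃ v, Ext N σ a u v then h.choose else u
  let q : ℕ → ℕ := fun v => if h : ∃ u, Ext N σ a u v then h.choose else v
  have hp : ∀ u v, Ext N σ a u v → v = p u := by
    intro u v h
    have h1 : ∃ v, Ext N σ a u v := ⟨v, h⟩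
    simp only [p, h1, dif_pos]
    exact ext_unique_right N σ a ha u _ _ h h1.choose_spec
  have hq : ∀ u v, Ext N σ a u v → u = q v := by
    intro u v h
    have h1 : ∃ u, Ext N σ a u v := ⟨u, h⟩
    simp only [q, h1, dif_pos]
    exact ext_unique_left N σ a ha _ _ v h h1.choose_spec
  refine ⟨fun u => {u, u + 1, u - 1, p u, q u}, fun u => Finset.card_le_five, fun u => by simp, ?_⟩
  intro u v h
  rw [G, SimpleGraph.fromRel_adj] at h
  obtain ⟨-, (h | h) | (h | h)⟩ := h
  · simp [h]
  · simp [hp u v h]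
  · have : v = u - 1 := by omega
    simp [this]
  · have := hq v u h
    simp [← this]

end block

/-- no bounded geometry space is coarsely universal, even for graphs of degree at most three; here the target
graph space is produced for a given `X` with a base point -/
theorem main (X : Type) [MetricSpace X]
    (hX : ∀ r : ℝ, 0 < r → ∃ N : ℕ, ∀ x : X, ∀ s : Finset X,
        (↑s : Set X) ⊆ Metric.closedBall x r → s.card ≤ N) (x0 : X) :
    ∃ (Y : Type) (_ : MetricSpace Y),
      (∀ r : ℝ, 0 < r → ∃ N : ℕ, ∀ y : Y, ∀ s : Finset Y,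
          (↑s : Set Y) ⊆ Metric.closedBall y r → s.card ≤ N) ∧
      ¬ ∃ f : Y → X, ∃ ρm ρp : ℝ → ℝ,
        Filter.Tendsto ρm Filter.atTop Filter.atTop ∧
        ∀ y y' : Y, ρm (dist y y') ≤ dist (f y) (f y') ∧
          dist (f y) (f y') ≤ ρp (dist y y') := by
  classical
  have hX' : ∀ n : ℕ, ∃ D : ℕ, ∀ x : X, ∀ s : Finset X,
      (↑s : Set X) ⊆ Metric.closedBall x ((n : ℝ) + 1) → s.card ≤ D := fun n => hX _ (by positivity)
  choose D hD using hX'
  have hst : ∀ n b : ℕ, ∃ N : ℕ, 0 < N ∧ ∃ σ : Equiv.Perm (Fin N), ∀ g : ℕ → X, g 0 = x0 →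
      (∀ i, dist (g (i + 1)) (g i) ≤ (n : ℝ) + 1) →
      (∀ x, ∀ s : Finset ℕ, (∀ i ∈ s, g (i + 1) = x) → s.card ≤ n) →
      ∃ i : Fin N, (n : ℝ) + 1 < dist (g (b + N + (σ i : ℕ) + 1)) (g (b + (i : ℕ) + 1)) :=
    fun n b => stage x0 (D n) n b _ (hD n)
  choose NN hN0 ss hss using hst
  let a : ℕ → ℕ := fun n => Nat.rec 0 (fun k b => b + 2 * NN k b) n
  have ha : ∀ n, a (n + 1) = a n + 2 * NN n (a n) := fun n => rfl
  let N : ℕ → ℕ := fun n => NN n (a n)
  let σ : ∀ n, Equiv.Perm (Fin (N n)) := fun n => ss n (a n)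
  have ha' : ∀ n, a (n + 1) = a n + 2 * N n := ha
  have hcon := G_connected N σ a
  let inst : MetricSpace (V (G N σ a)) := met (G N σ a) hcon
  obtain ⟨nb, hnb1, hnb2, hnb3⟩ := nbs N σ a ha'
  have hgeo := bounded_geometry (G N σ a) hcon nb 5 hnb1 hnb2 hnb3
  have hdist : ∀ u v : V (G N σ a), dist u v = (((G N σ a).dist u.val v.val : ℕ) : ℝ) :=
    fun u v => rfl
  refine ⟨V (G N σ a), inst, ?_, ?_⟩
  · intro r _
    obtain ⟨K, hK⟩ := hgeo r
    refine ⟨K, fun y s hs => hK y s fun v hv => ?_⟩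
    have h1 := hs hv
    rw [Metric.mem_closedBall, hdist] at h1
    exact h1
  rintro ⟨f, ρm, ρp, hρ, hf⟩
  obtain ⟨T, hT⟩ := Filter.eventually_atTop.1 (hρ.eventually_ge_atTop 1)
  obtain ⟨M, hM⟩ := hgeo T
  let F : ℕ → X := fun k => f ⟨k⟩
  set n : ℕ := max (max ⌈ρp 1⌉₊ ⌈dist (F 0) x0⌉₊) M with hn
  have hn1 : ρp 1 ≤ n := (Nat.le_ceil _).trans (by
    exact_mod_cast (le_max_left _ _).trans (le_max_left _ _))
  have hn2 : dist (F 0) x0 ≤ n := (Nat.le_ceil _).trans (by
    exact_mod_cast (le_max_right _ _).trans (le_max_left _ _))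
  have hn3 : M ≤ n := le_max_right _ _
  let g : ℕ → X := fun k => Nat.rec x0 (fun j _ => F j) k
  have hg0 : g 0 = x0 := rfl
  have hg1 : ∀ k, g (k + 1) = F k := fun k => rfl
  have hadj : ∀ u v : ℕ, (G N σ a).Adj u v → dist (F u) (F v) ≤ n := by
    intro u v h
    have h1 := (hf ⟨u⟩ ⟨v⟩).2
    have h2 : dist (⟨u⟩ : V (G N σ a)) ⟨v⟩ = 1 := by
      rw [hdist]
      exact_mod_cast (SimpleGraph.dist_eq_one_iff_adj.2 h)
    rw [h2] at h1
    exact h1.trans hn1
  obtain ⟨i, hi⟩ := hss n (a n) g hg0 (by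
    intro k
    rcases k with _ | k
    · rw [hg1, hg0]; linarith
    · rw [hg1, hg1]
      have := hadj (k + 1) k (adj_succ N σ a k).symm
      linarith) (by
    intro x s hs
    refine le_trans ?_ hn3
    rcases s.eq_empty_or_nonempty with h | ⟨y, hy⟩
    · rw [h]; simp
    · have h0 : Function.Injective (fun k : ℕ => (⟨k⟩ : V (G N σ a))) := by
        intro u v h
        exact congrArg V.val h
      rw [← Finset.card_image_of_injective s h0]
      refine hM ⟨y⟩ _ ?_
      intro z hz
      rw [Finset.mem_image] at hz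
      obtain ⟨z, hz, rfl⟩ := hz
      rw [← hdist]
      by_contra hc
      push Not at hc
      have h1 := hT _ hc.le
      have h2 := (hf ⟨z⟩ ⟨y⟩).1
      have h3 : F z = F y := by
        have h4 := hs z hz
        have h5 := hs y hy
        rw [hg1] at h4 h5
        rw [h4, h5]
      have h4 : dist (f ⟨z⟩) (f ⟨y⟩) = 0 := by
        change dist (F z) (F y) = 0
        rw [h3, dist_self]
      rw [h4] at h2
      linarith)
  rw [hg1, hg1] at hi
  have h1 : (G N σ a).Adj (a n + N n + (σ n i : ℕ)) (a n + i) := by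
    have h5 : (i : ℕ) < N n := i.isLt
    rw [G, SimpleGraph.fromRel_adj]
    exact ⟨by omega, Or.inr (Or.inr ⟨n, i, rfl, rfl⟩)⟩
  have h2 := hadj _ _ h1
  have h4 : (n : ℝ) + 1 < dist (F (a n + N n + (σ n i : ℕ))) (F (a n + (i : ℕ))) := hi
  linarith

end Pool.Agent.H779R3.CU
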